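import Mathlib

/-!
Abstract setting: Lie algebras with an invariant inner product.
-/

noncomputable section

namespace Pool.Agent.H842R6

/-- a Lie bracket with invariant inner product -/
structure LieIP (𝔤 : Type) [NormedAddCommGroup 𝔤] [InnerProductSpace ℝ 𝔤] where
  br : 𝔤 →ₗ[ℝ] 𝔤 →ₗ[ℝ] 𝔤
  br_self : ∀ A, br A A = 0
  jac : ∀ A B C, br A (br B C) = br (br A B) C + br B (br A C)
  ad_inv : ∀ A B C, inner ℝ (br A B) C = inner ℝ A (br B C)

end Pool.Agent.H842R6
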