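import Pool.Agent.H842R6.Grp

/-!
Calculus of smooth functions on a compact group; the functions `Q((Ad_p x, u), (Ad_p y, v))`.
-/

open scoped ContDiff Matrix.Norms.Frobenius
open Matrix

noncomputable section

namespace Pool.Agent.H842R6

variable {N : ℕ} {G : CompactGroup N}

theorem move_zero (p : Pt G) (A : Alg G) : move p A 0 = p := by
  apply Subtype.ext
  show p.1 * NormedSpace.exp ((0 : ℝ) • A.1) = p.1
  rw [zero_smul, NormedSpace.exp_zero, mul_one]

theorem lie_eq (f : Pt G → ℝ) (F : Mat N → ℝ) (hF : ContDiff ℝ ∞ F) (hf : ∀ p : Pt G, f p = F p.1)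
    (A : Alg G) (p : Pt G) : lie A f p = fderiv ℝ F p.1 (p.1 * A.1) := by
  unfold lie
  have h1 := H842R4.hasDerivAt_F F hF A.1 p.1 0
  rw [zero_smul, NormedSpace.exp_zero, mul_one] at h1
  have h2 : (fun s => f (move p A s)) =
      fun u : ℝ => F (p.1 * NormedSpace.exp (u • A.1)) := by
    funext u
    rw [hf]
    rfl
  rw [h2]
  exact h1.deriv

theorem smooth_lie (f : Pt G → ℝ) (hf : Smooth f) (A : Alg G) : Smooth (lie A f) := by
  obtain ⟨F, hF, hfF⟩ := hf
  exact ⟨fun q => fderiv ℝ F q (q * A.1), H842R4.sulie_smooth F hF A.1,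
    fun p => lie_eq f F hF hfF A p⟩

theorem deriv0 (f : Pt G → ℝ) (hf : Smooth f) (A : Alg G) (p : Pt G) :
    HasDerivAt (fun u => f (move p A u)) (lie A f p) 0 := by
  obtain ⟨F, hF, hfF⟩ := hf
  have h1 := H842R4.hasDerivAt_F F hF A.1 p.1 0
  have h2 : (fun s => f (move p A s)) =
      fun u : ℝ => F (p.1 * NormedSpace.exp (u • A.1)) := by
    funext u
    rw [hfF]
    rfl
  rw [h2, lie_eq f F hF hfF A p]
  rw [zero_smul, NormedSpace.exp_zero, mul_one] at h1
  exact h1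

theorem smooth_add {f g : Pt G → ℝ} (hf : Smooth f) (hg : Smooth g) :
    Smooth (fun p => f p + g p) := by
  obtain ⟨F, hF, hfF⟩ := hf
  obtain ⟨G, hG, hgG⟩ := hg
  exact ⟨fun q => F q + G q, hF.add hG, fun p => congrArg₂ (· + ·) (hfF p) (hgG p)⟩

theorem smooth_mul {f g : Pt G → ℝ} (hf : Smooth f) (hg : Smooth g) :
    Smooth (fun p => f p * g p) := by
  obtain ⟨F, hF, hfF⟩ := hf
  obtain ⟨G, hG, hgG⟩ := hg
  exact ⟨fun q => F q * G q, hF.mul hG, fun p => congrArg₂ (· * ·) (hfF p) (hgG p)⟩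

theorem smooth_const (c : ℝ) : Smooth (fun _ : Pt G => c) := ⟨fun _ => c, contDiff_const, fun _ => rfl⟩

theorem smooth_sum {ι : Type} (s : Finset ι) (f : ι → Pt G → ℝ) (hf : ∀ i ∈ s, Smooth (f i)) :
    Smooth (fun p => ∑ i ∈ s, f i p) := by
  classical
  induction s using Finset.induction_on with
  | empty => simpa using smooth_const (G := G) 0
  | insert a s ha ih =>
    have h1 := smooth_add (hf a (Finset.mem_insert_self a s))
      (ih fun i hi => hf i (Finset.mem_insert_of_mem hi))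
    refine Eq.mp ?_ h1
    congr 1
    funext p
    rw [Finset.sum_insert ha]

theorem lie_add {f g : Pt G → ℝ} (hf : Smooth f) (hg : Smooth g) (A : Alg G) (p : Pt G) :
    lie A (fun q => f q + g q) p = lie A f p + lie A g p :=
  ((deriv0 f hf A p).add (deriv0 g hg A p)).deriv

theorem lie_sub {f g : Pt G → ℝ} (hf : Smooth f) (hg : Smooth g) (A : Alg G) (p : Pt G) :
    lie A (fun q => f q - g q) p = lie A f p - lie A g p :=
  ((deriv0 f hf A p).sub (deriv0 g hg A p)).deriv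

theorem lie_const (c : ℝ) (A : Alg G) (p : Pt G) : lie A (fun _ : Pt G => c) p = 0 := by
  unfold lie
  simp

theorem lie_const_mul {f : Pt G → ℝ} (hf : Smooth f) (c : ℝ) (A : Alg G) (p : Pt G) :
    lie A (fun q => c * f q) p = c * lie A f p :=
  ((deriv0 f hf A p).const_mul c).deriv

theorem lie_div_const {f : Pt G → ℝ} (hf : Smooth f) (c : ℝ) (A : Alg G) (p : Pt G) :
    lie A (fun q => f q / c) p = lie A f p / c :=
  ((deriv0 f hf A p).div_const c).deriv

theorem lie_mul {f g : Pt G → ℝ} (hf : Smooth f) (hg : Smooth g) (A : Alg G) (p : Pt G) :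
    lie A (fun q => f q * g q) p = lie A f p * g p + f p * lie A g p := by
  have h := ((deriv0 f hf A p).mul (deriv0 g hg A p)).deriv
  rw [move_zero] at h
  exact h

theorem lie_sum {ι : Type} (s : Finset ι) (f : ι → Pt G → ℝ) (hf : ∀ i ∈ s, Smooth (f i))
    (A : Alg G) (p : Pt G) :
    lie A (fun q => ∑ i ∈ s, f i q) p = ∑ i ∈ s, lie A (f i) p :=
  (HasDerivAt.fun_sum fun i hi => deriv0 (f i) (hf i hi) A p).deriv

/-- the function `Q(Ad_p x, Ad_p y)` -/
def QQ (Q : Alg G →ₗ[ℝ] Alg G →ₗ[ℝ] ℝ) (x y : Alg G) (p : Pt G) : ℝ := Q (Ad p x) (Ad p y)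

/-- a bilinear form as a continuous bilinear form -/
def contBil {E : Type} [NormedAddCommGroup E] [NormedSpace ℝ E] [FiniteDimensional ℝ E]
    (q : E →ₗ[ℝ] E →ₗ[ℝ] ℝ) : E →L[ℝ] E →L[ℝ] ℝ :=
  LinearMap.toContinuousLinearMap ((LinearMap.toContinuousLinearMap :
      (E →ₗ[ℝ] ℝ) ≃ₗ[ℝ] (E →L[ℝ] ℝ)).toLinearMap ∘ₗ q)

theorem contBil_apply {E : Type} [NormedAddCommGroup E] [NormedSpace ℝ E] [FiniteDimensional ℝ E]
    (q : E →ₗ[ℝ] E →ₗ[ℝ] ℝ) (x y : E) : contBil q x y = q x y := rfl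

/-- the conjugate transpose as a continuous linear map -/
def starL (N : ℕ) : Mat N →L[ℝ] Mat N :=
  LinearMap.toContinuousLinearMap
    { toFun := fun M => Mᴴ
      map_add' := fun A B => conjTranspose_add A B
      map_smul' := fun c A => by simp [conjTranspose_smul] }

theorem starL_apply (M : Mat N) : starL N M = Mᴴ := rfl

/-- a projection of matrices onto the Lie algebra -/
theorem exists_PL (G : CompactGroup N) : ∃ PL : Mat N →L[ℝ] Alg G,
    ∀ (p : Pt G) (X : Alg G), PL (p.1 * X.1 * (starL N) p.1) = Ad p X := by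
  obtain ⟨P, hP⟩ := G.alg.subtype.exists_leftInverse_of_injective
    (LinearMap.ker_eq_bot.2 G.alg.injective_subtype)
  have hP' : ∀ X : G.alg, P (X : Mat N) = X := fun X =>
    congrArg (fun f : G.alg →ₗ[ℝ] G.alg => f X) hP
  exact ⟨(P.toContinuousLinearMap : Mat N →L[ℝ] G.alg), fun p X => hP' (Ad p X)⟩

theorem smooth_QQ (Q : Alg G →ₗ[ℝ] Alg G →ₗ[ℝ] ℝ) (x y : Alg G) :
    Smooth (QQ Q x y) := by
  obtain ⟨PL, hPL⟩ := exists_PL G
  have hc : ∀ X : Mat N, ContDiff ℝ ∞ (fun M : Mat N => PL (M * X * (starL N) M)) := by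
    intro X
    exact PL.contDiff.comp ((contDiff_id.mul contDiff_const).mul (starL N).contDiff)
  refine ⟨fun M => contBil Q (PL (M * x.1 * (starL N) M)) (PL (M * y.1 * (starL N) M)), ?_, ?_⟩
  · exact ((contBil Q).contDiff.comp (hc x.1)).clm_apply (hc y.1)
  · intro p
    show Q (Ad p x) (Ad p y) = Q (PL (p.1 * x.1 * (starL N) p.1)) (PL (p.1 * y.1 * (starL N) p.1))
    rw [hPL, hPL]

theorem hasDerivAt_Ad (p : Pt G) (Z A : Alg G) :
    HasDerivAt (fun s => Ad (move p Z s) A) (Ad p (brk Z A)) 0 := by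
  have h1 : (fun s => Ad (move p Z s) A) =
      fun s => LinearMap.toContinuousLinearMap (AdL p) (ad Z s A) := by
    funext s
    rw [Ad_move]
    rfl
  rw [h1]
  have h2 := (LinearMap.toContinuousLinearMap (AdL p)).hasFDerivAt.comp_hasDerivAt (0 : ℝ)
    (ad_der Z A 0)
  rw [ad_zero] at h2
  exact h2

theorem lie_QQ (Q : Alg G →ₗ[ℝ] Alg G →ₗ[ℝ] ℝ) (x y : Alg G) (Z : Alg G) (p : Pt G) :
    lie Z (QQ Q x y) p = QQ Q (brk Z x) y p + QQ Q x (brk Z y) p := by
  have h3 := ((contBil Q).hasFDerivAt.comp_hasDerivAt (0 : ℝ) (hasDerivAt_Ad p Z x)).clm_apply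
    (hasDerivAt_Ad p Z y)
  simp only [Function.comp, contBil_apply, move_zero] at h3
  exact h3.deriv

end Pool.Agent.H842R6
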