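import Mathlib

/-!
First and second order conditions at a maximum of a quadratic form along a curve.
-/

noncomputable section

namespace Pool.Agent.H842R6

theorem crit {E : Type} [NormedAddCommGroup E] [NormedSpace ℝ E] [FiniteDimensional ℝ E]
    (q : E →ₗ[ℝ] E →ₗ[ℝ] ℝ) (hq : ∀ x y, q x y = q y x) (φ φ' : ℝ → E) (φ'' : E)
    (h1 : ∀ s, HasDerivAt φ (φ' s) s) (h2 : HasDerivAt φ' φ'' 0)
    (hmax : ∀ s, q (φ s) (φ s) ≤ q (φ 0) (φ 0)) :
    q (φ 0) (φ' 0) = 0 ∧ q (φ' 0) (φ' 0) + q (φ 0) φ'' ≤ 0 := by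
  let B : E →L[ℝ] E →L[ℝ] ℝ :=
    LinearMap.toContinuousLinearMap ((LinearMap.toContinuousLinearMap :
      (E →ₗ[ℝ] ℝ) ≃ₗ[ℝ] (E →L[ℝ] ℝ)).toLinearMap ∘ₗ q)
  have hB : ∀ x y, B x y = q x y := fun x y => rfl
  have hder : ∀ (f g : ℝ → E) (f' g' : E) (s : ℝ), HasDerivAt f f' s → HasDerivAt g g' s →
      HasDerivAt (fun t => q (f t) (g t)) (q f' (g s) + q (f s) g') s := by
    intro f g f' g' s hf hg
    exact (B.hasFDerivAt.comp_hasDerivAt s hf).clm_apply hg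
  have hF : ∀ s, HasDerivAt (fun t => q (φ t) (φ t)) (2 * q (φ s) (φ' s)) s := by
    intro s
    have h := hder φ φ _ _ s (h1 s) (h1 s)
    rw [hq (φ' s) (φ s)] at h
    rwa [two_mul]
  have hF2 : HasDerivAt (fun s => 2 * q (φ s) (φ' s)) (2 * (q (φ' 0) (φ' 0) + q (φ 0) φ'')) 0 :=
    (hder φ φ' _ _ 0 (h1 0) h2).const_mul 2
  have hlm : IsLocalMax (fun t => q (φ t) (φ t)) 0 := Filter.Eventually.of_forall hmax
  have hz : 2 * q (φ 0) (φ' 0) = 0 := hlm.hasDerivAt_eq_zero (hF 0)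
  refine ⟨by linarith, ?_⟩
  by_contra hcon
  push Not at hcon
  have hd : deriv (fun t => q (φ t) (φ t)) = fun s => 2 * q (φ s) (φ' s) := by
    funext s
    exact (hF s).deriv
  have hmin : IsLocalMin (fun t => q (φ t) (φ t)) 0 := by
    apply isLocalMin_of_deriv_deriv_pos
    · rw [hd, hF2.deriv]
      linarith
    · rw [hd]
      exact hz
    · exact (hF 0).continuousAt
  have hconst : (fun t => q (φ t) (φ t)) =ᶠ[nhds 0] fun _ => q (φ 0) (φ 0) := by
    filter_upwards [hmin, hlm] with t h3 h4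
    exact le_antisymm h4 h3
  have hd2 : deriv (fun t => q (φ t) (φ t)) =ᶠ[nhds 0] fun _ => 0 := by
    have := hconst.deriv
    simpa using this
  rw [hd] at hd2
  have h5 : deriv (fun s => 2 * q (φ s) (φ' s)) 0 = 0 := by
    rw [hd2.deriv_eq]
    simp
  rw [hF2.deriv] at h5
  linarith

end Pool.Agent.H842R6
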