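import Pool.Agent.H842R6.Calc

/-!
First and second derivatives of an action-quadratic metric.
-/

open scoped ContDiff Matrix.Norms.Frobenius
open Matrix

noncomputable section

namespace Pool.Agent.H842R6

variable {N : ℕ} {G K : CompactGroup N}

theorem ip_ext {X Y : Alg G} (h : ∀ w, ip X w = ip Y w) : X = Y := by
  apply ext_inner_right ℝ
  exact h

theorem ip_add (X Y Z : Alg G) : ip (X + Y) Z = ip X Z + ip Y Z := inner_add_left X Y Z

theorem ip_add_right (X Y Z : Alg G) : ip X (Y + Z) = ip X Y + ip X Z := inner_add_right X Y Z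

theorem ip_sub_right (X Y Z : Alg G) : ip X (Y - Z) = ip X Y - ip X Z := inner_sub_right X Y Z

theorem ip_smul (c : ℝ) (X Z : Alg G) : ip (c • X) Z = c * ip X Z := real_inner_smul_left X Z c

theorem ip_neg (X Z : Alg G) : ip (-X) Z = - ip X Z := inner_neg_left X Z

theorem ip_neg_right (X Z : Alg G) : ip X (-Z) = - ip X Z := inner_neg_right X Z

theorem ip_zero_left (Z : Alg G) : ip 0 Z = 0 := inner_zero_left Z

theorem ip_zero_right (Z : Alg G) : ip Z 0 = 0 := inner_zero_right Z

theorem ip_eq_zero {X : Alg G} (h : ∀ U, ip X U = 0) : X = 0 := by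
  have h3 := h X
  rw [ip_self] at h3
  exact norm_eq_zero.1 ((pow_eq_zero_iff two_ne_zero).1 h3)

theorem brk_add_left (A B C : Alg G) : brk (A + B) C = brk A C + brk B C := by
  have h := (brL G).map_add A B
  exact congrArg (fun f : Alg G →ₗ[ℝ] Alg G => f C) h

theorem brk_add_right (A B C : Alg G) : brk A (B + C) = brk A B + brk A C := (brL G A).map_add B C

theorem brk_smul_right (c : ℝ) (A B : Alg G) : brk A (c • B) = c • brk A B :=
  (brL G A).map_smul c B

theorem brk_neg_right (A B : Alg G) : brk A (-B) = - brk A B := (brL G A).map_neg B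

theorem brk_anti (A B : Alg G) : brk A B = - brk B A := (lip G).anti A B

theorem brk_zero_right (A : Alg G) : brk A 0 = 0 := (brL G A).map_zero

theorem brk_zero_left (A : Alg G) : brk 0 A = 0 := by
  rw [brk_anti, brk_zero_right, neg_zero]

theorem ip_brk' (A B C : Alg G) : ip A (brk B C) = ip (brk C A) B := by
  rw [← ip_brk, ip_comm (brk A B), ← ip_brk]

theorem exists_riesz (f : Alg G →ₗ[ℝ] ℝ) : ∃ h : Alg G, ∀ x, ip h x = f x := by
  refine ⟨(InnerProductSpace.toDual ℝ (Alg G)).symm (LinearMap.toContinuousLinearMap f),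
    fun X => ?_⟩
  exact InnerProductSpace.toDual_symm_apply (𝕜 := ℝ) (x := X)
    (y := LinearMap.toContinuousLinearMap f)

namespace Metric

variable (g : Metric G K)

theorem add_right (p : Pt G) (A B C : Alg G) : g.val p A (B + C) = g.val p A B + g.val p A C := by
  rw [g.symm, g.add, g.symm p B, g.symm p C]

theorem smul_right (p : Pt G) (c : ℝ) (A B : Alg G) : g.val p A (c • B) = c * g.val p A B := by
  rw [g.symm, g.smul, g.symm p B]

/-- the metric at `p` as a bilinear form -/
def bil (p : Pt G) : Alg G →ₗ[ℝ] Alg G →ₗ[ℝ] ℝ :=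
  LinearMap.mk₂ ℝ (g.val p) (g.add p) (g.smul p) (g.add_right p) (g.smul_right p)

theorem bil_apply (p : Pt G) (A B : Alg G) : g.bil p A B = g.val p A B := rfl

theorem val_sub (p : Pt G) (A B C : Alg G) : g.val p (A - B) C = g.val p A C - g.val p B C := by
  rw [← g.bil_apply, map_sub]
  rfl

/-- the Cauchy-Schwarz inequality -/
theorem gram_nonneg (p : Pt G) (A B : Alg G) :
    0 ≤ g.val p A A * g.val p B B - g.val p A B ^ 2 := by
  have hs : g.bil p B A = g.bil p A B := g.symm p B A
  by_cases hB : g.val p B B = 0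
  · -- then `val A B = 0`
    have h0 : g.val p A B = 0 := by
      by_contra hne
      set x := g.val p A B with hx
      have h := g.nonneg p (A - ((g.val p A A + 1) / (2 * x)) • B)
      have e : g.val p (A - ((g.val p A A + 1) / (2 * x)) • B)
          (A - ((g.val p A A + 1) / (2 * x)) • B) = -1 := by
        have e1 : g.bil p A A = g.val p A A := rfl
        have e2 : g.bil p A B = x := rfl
        have e3 : g.bil p B B = 0 := hB
        rw [← g.bil_apply p (A - ((g.val p A A + 1) / (2 * x)) • B)]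
        simp only [map_sub, map_smul, LinearMap.sub_apply, LinearMap.smul_apply, smul_eq_mul, hs,
          e1, e2, e3]
        field_simp
        ring
      rw [e] at h
      linarith
    rw [hB, h0]
    simp
  · have hpos : 0 < g.val p B B := lt_of_le_of_ne (g.nonneg p B) (Ne.symm hB)
    have h := g.nonneg p (g.val p B B • A - g.val p A B • B)
    have e : g.val p (g.val p B B • A - g.val p A B • B) (g.val p B B • A - g.val p A B • B) =
        g.val p B B * (g.val p A A * g.val p B B - g.val p A B ^ 2) := by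
      simp only [← g.bil_apply, map_sub, map_smul, LinearMap.sub_apply, LinearMap.smul_apply,
        smul_eq_mul, hs]
      ring
    rw [e] at h
    exact nonneg_of_mul_nonneg_right h hpos

/-- vertical vectors are orthogonal to everything -/
theorem vert (p : Pt G) {A : Alg G} (hA : A.1 ∈ K.alg) (B : Alg G) : g.val p A B = 0 := by
  have h1 := g.gram_nonneg p A B
  rw [(g.ker p A).2 hA, zero_mul] at h1
  have h2 : g.val p A B ^ 2 = 0 := le_antisymm (by linarith) (sq_nonneg _)
  exact (pow_eq_zero_iff two_ne_zero).1 h2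

theorem mem_of_val (p : Pt G) {A : Alg G} (hA : ∀ B, g.val p A B = 0) : A.1 ∈ K.alg :=
  (g.ker p A).1 (hA A)

/-- the vector `V` is dual to the covector `⟨a, ·⟩` -/
def Dual (p : Pt G) (V a : Alg G) : Prop := ∀ X, g.val p V X = ip a X

/-- the metric as a self-adjoint operator -/
def op (p : Pt G) : Alg G →ₗ[ℝ] Alg G :=
  (InnerProductSpace.toDual ℝ (Alg G)).symm.toLinearEquiv.toLinearMap ∘ₗ
    (LinearMap.toContinuousLinearMap : (Alg G →ₗ[ℝ] ℝ) ≃ₗ[ℝ] (Alg G →L[ℝ] ℝ)).toLinearMap ∘ₗ
    g.bil p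

theorem ip_op (p : Pt G) (V X : Alg G) : ip (g.op p V) X = g.val p V X :=
  InnerProductSpace.toDual_symm_apply (𝕜 := ℝ) (x := X)
    (y := LinearMap.toContinuousLinearMap (g.bil p V))

theorem exists_covec (p : Pt G) (V : Alg G) : ∃ a, g.Dual p V a :=
  ⟨g.op p V, fun X => (g.ip_op p V X).symm⟩

theorem exists_vec (p : Pt G) {a : Alg G} (ha : ∀ X : Alg G, X.1 ∈ K.alg → ip a X = 0) :
    ∃ V, g.Dual p V a := by
  have hsym : (g.op p).IsSymmetric := by
    intro X Y
    show ip (g.op p X) Y = ip X (g.op p Y)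
    rw [g.ip_op, ip_comm X, g.ip_op, g.symm]
  have h1 : a ∈ (LinearMap.ker (g.op p))ᗮ := by
    rw [Submodule.mem_orthogonal']
    intro u hu
    apply ha
    apply g.mem_of_val p
    intro B
    rw [← g.ip_op, show g.op p u = 0 from hu, ip_zero_left]
  rw [← hsym.orthogonal_range, Submodule.orthogonal_orthogonal] at h1
  obtain ⟨V, hV⟩ := h1
  exact ⟨V, fun X => by rw [← hV, g.ip_op]⟩

end Metric

/-- an orthonormal basis of the Lie algebra -/
def eb (G : CompactGroup N) : OrthonormalBasis (Fin (Module.finrank ℝ (Alg G))) ℝ (Alg G) :=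
  stdOrthonormalBasis ℝ (Alg G)

theorem expand (f : Alg G →ₗ[ℝ] ℝ) (Y : Alg G) : ∑ i, ip Y (eb G i) * f (eb G i) = f Y := by
  conv_rhs => rw [← (eb G).sum_repr' Y]
  rw [map_sum]
  refine Finset.sum_congr rfl fun i _ => ?_
  rw [map_smul, smul_eq_mul, inner_eq, ip_comm]

variable (Q : Alg G →ₗ[ℝ] Alg G →ₗ[ℝ] ℝ)

/-- derivative of the dual metric -/
def kap (Z x y : Alg G) (p : Pt G) : ℝ := QQ Q (brk Z x) y p + QQ Q x (brk Z y) p

/-- second derivative of the dual metric -/
def kap2 (W Z x y : Alg G) (p : Pt G) : ℝ :=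
  QQ Q (brk W (brk Z x)) y p + QQ Q (brk Z x) (brk W y) p +
    (QQ Q (brk W x) (brk Z y) p + QQ Q x (brk W (brk Z y)) p)

theorem QQ_add_right (x y z : Alg G) (p : Pt G) : QQ Q x (y + z) p = QQ Q x y p + QQ Q x z p := by
  unfold QQ
  rw [show Ad p (y + z) = Ad p y + Ad p z from (AdL p).map_add y z, map_add]

theorem QQ_smul_right (c : ℝ) (x y : Alg G) (p : Pt G) : QQ Q x (c • y) p = c * QQ Q x y p := by
  unfold QQ
  rw [show Ad p (c • y) = c • Ad p y from (AdL p).map_smul c y, map_smul, smul_eq_mul]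

theorem QQ_add_left (x y z : Alg G) (p : Pt G) : QQ Q (x + y) z p = QQ Q x z p + QQ Q y z p := by
  unfold QQ
  rw [show Ad p (x + y) = Ad p x + Ad p y from (AdL p).map_add x y, map_add]
  rfl

theorem QQ_zero_left (y : Alg G) (p : Pt G) : QQ Q 0 y p = 0 := by
  have := QQ_add_left Q 0 0 y p
  rw [add_zero] at this
  linarith

theorem QQ_zero_right (y : Alg G) (p : Pt G) : QQ Q y 0 p = 0 := by
  have := QQ_add_right Q y 0 0 p
  rw [add_zero] at this
  linarith

/-- `QQ` is linear in the last variable -/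
def QQL (x : Alg G) (p : Pt G) : Alg G →ₗ[ℝ] ℝ where
  toFun y := QQ Q x y p
  map_add' y z := QQ_add_right Q x y z p
  map_smul' c y := QQ_smul_right Q c x y p

/-- `kap` is linear in the last variable -/
def kapL (Z x : Alg G) (p : Pt G) : Alg G →ₗ[ℝ] ℝ where
  toFun y := kap Q Z x y p
  map_add' y z := by
    unfold kap
    rw [QQ_add_right, brk_add_right, QQ_add_right]
    ring
  map_smul' c y := by
    simp only [RingHom.id_apply, smul_eq_mul]
    unfold kap
    rw [QQ_smul_right, brk_smul_right, QQ_smul_right]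
    ring

/-- `kap2` is linear in the last variable -/
def kap2L (W Z x : Alg G) (p : Pt G) : Alg G →ₗ[ℝ] ℝ where
  toFun y := kap2 Q W Z x y p
  map_add' y z := by
    unfold kap2
    rw [brk_add_right, brk_add_right, brk_add_right, QQ_add_right, QQ_add_right, QQ_add_right,
      QQ_add_right]
    ring
  map_smul' c y := by
    simp only [RingHom.id_apply, smul_eq_mul]
    unfold kap2
    rw [brk_smul_right, brk_smul_right, brk_smul_right, QQ_smul_right, QQ_smul_right,
      QQ_smul_right, QQ_smul_right]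
    ring

theorem smooth_kap (Z x y : Alg G) : Smooth (kap Q Z x y) :=
  smooth_add (smooth_QQ Q _ _) (smooth_QQ Q _ _)

theorem lie_kap (W Z x y : Alg G) (p : Pt G) : lie W (kap Q Z x y) p = kap2 Q W Z x y p := by
  have h := lie_add (smooth_QQ Q (brk Z x) y) (smooth_QQ Q x (brk Z y)) W p
  rw [lie_QQ, lie_QQ] at h
  exact h

/-- the vector `K z` with `⟨K z, y⟩ = Q(z, y)` -/
theorem exists_Kv (p : Pt G) (z : Alg G) : ∃ V : Alg G, ∀ y, ip V y = QQ Q z y p :=
  exists_riesz (QQL Q z p)

/-- the metric `g` has the dual metric `Q` -/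
def HasDualQ (g : Metric G K) (Q : Alg G →ₗ[ℝ] Alg G →ₗ[ℝ] ℝ) : Prop :=
  (∀ x y, Q x y = Q y x) ∧ ∀ (p : Pt G) (a b V W : Alg G), g.Dual p V a → g.Dual p W b →
      g.val p V W = Q (Ad p a) (Ad p b)

/-- orthogonal to the Lie algebra of `K` -/
def Perp (K : CompactGroup N) (y : Alg G) : Prop := ∀ X : Alg G, X.1 ∈ K.alg → ip y X = 0

theorem Metric.Dual.perp {g : Metric G K} {p : Pt G} {V a : Alg G} (h : g.Dual p V a) :
    Perp K a := by
  intro X hX
  rw [← h X, g.symm, g.vert p hX]

variable {Q} {g : Metric G K} (hQ : HasDualQ g Q)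
include hQ

theorem QQ_symm (x y : Alg G) (p : Pt G) : QQ Q x y p = QQ Q y x p := hQ.1 _ _

theorem kap_symm (Z x y : Alg G) (p : Pt G) : kap Q Z x y p = kap Q Z y x p := by
  unfold kap
  rw [QQ_symm hQ (brk Z x), QQ_symm hQ x]
  ring

theorem dual_Kv {p : Pt G} {y V : Alg G} (hy : Perp K y) (hV : ∀ w, ip V w = QQ Q y w p) :
    g.Dual p V y := by
  obtain ⟨Y, hY⟩ := g.exists_vec p hy
  have h1 : ∀ w, Perp K w → ip w (V - Y) = 0 := by
    intro w hw
    obtain ⟨W, hW⟩ := g.exists_vec p hw
    have h2 : ip w Y = QQ Q y w p := by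
      rw [← hW Y, g.symm, hQ.2 p y w Y W hY hW]
      rfl
    rw [ip_sub_right, h2, ip_comm, hV, sub_self]
  intro X
  obtain ⟨x, hx⟩ := g.exists_covec p X
  have h3 : g.val p X (V - Y) = 0 := by
    rw [hx]
    exact h1 x hx.perp
  rw [g.symm, g.val_sub, g.symm p V, g.symm p Y, sub_eq_zero] at h3
  rw [g.symm, h3, g.symm, hY]

theorem sum_KK (p : Pt G) {y : Alg G} (hy : Perp K y) (X : Alg G) :
    ∑ i, QQ Q y (eb G i) p * g.val p (eb G i) X = ip y X := by
  obtain ⟨Y, hY⟩ := exists_Kv Q p y
  rw [← dual_Kv hQ hy hY X]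
  have h := expand ((g.bil p).flip X) Y
  rw [LinearMap.flip_apply, g.bil_apply] at h
  rw [← h]
  refine Finset.sum_congr rfl fun i _ => ?_
  rw [hY]
  rfl

omit hQ in
/-- the derivative of the metric as a linear functional -/
def lieL (g : Metric G K) (Z X : Alg G) (p : Pt G) : Alg G →ₗ[ℝ] ℝ where
  toFun w := lie Z (fun q => g.val q w X) p
  map_add' v w := by
    have h := lie_add (g.smooth v X) (g.smooth w X) Z p
    simp only [← g.add] at h
    exact h
  map_smul' c w := by
    have h := lie_const_mul (g.smooth w X) c Z p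
    simp only [← g.smul] at h
    exact h

omit hQ in
/-- the second derivative of the metric as a linear functional -/
def lieL2 (g : Metric G K) (W Z X : Alg G) (p : Pt G) : Alg G →ₗ[ℝ] ℝ where
  toFun w := lie W (lie Z (fun q => g.val q w X)) p
  map_add' v w := by
    have h := lie_add (smooth_lie _ (g.smooth v X) Z) (smooth_lie _ (g.smooth w X) Z) W p
    have h2 : (fun q => lie Z (fun q => g.val q v X) q + lie Z (fun q => g.val q w X) q) =
        lie Z (fun q => g.val q (v + w) X) := by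
      funext q
      exact ((lieL g Z X q).map_add v w).symm
    rw [h2] at h
    exact h
  map_smul' c w := by
    have h := lie_const_mul (smooth_lie _ (g.smooth w X) Z) c W p
    have h2 : (fun q => c * lie Z (fun q => g.val q w X) q) =
        lie Z (fun q => g.val q (c • w) X) := by
      funext q
      exact ((lieL g Z X q).map_smul c w).symm
    rw [h2] at h
    exact h

omit hQ in
theorem lieL_vert (g : Metric G K) (Z X : Alg G) (p : Pt G) {Y Y' y : Alg G} (h1 : g.Dual p Y y)
    (h2 : g.Dual p Y' y) : lieL g Z X p Y = lieL g Z X p Y' := by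
  rw [← sub_eq_zero, ← map_sub]
  have h3 : (Y - Y').1 ∈ K.alg := g.mem_of_val p fun B => by
    rw [g.val_sub, h1, h2, sub_self]
  show lie Z (fun q => g.val q (Y - Y') X) p = 0
  rw [show (fun q => g.val q (Y - Y') X) = fun _ => (0 : ℝ) from funext fun q => g.vert q h3 X,
    lie_const]

omit hQ in
theorem lieL2_vert (g : Metric G K) (W Z X : Alg G) (p : Pt G) {Y Y' y : Alg G}
    (h1 : g.Dual p Y y) (h2 : g.Dual p Y' y) : lieL2 g W Z X p Y = lieL2 g W Z X p Y' := by
  rw [← sub_eq_zero, ← map_sub]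
  have h3 : (Y - Y').1 ∈ K.alg := g.mem_of_val p fun B => by
    rw [g.val_sub, h1, h2, sub_self]
  show lie W (lie Z (fun q => g.val q (Y - Y') X)) p = 0
  rw [show (fun q => g.val q (Y - Y') X) = fun _ => (0 : ℝ) from funext fun q => g.vert q h3 X,
    show (lie Z fun _ : Pt G => (0 : ℝ)) = fun _ => 0 from funext fun q => lie_const 0 Z q,
    lie_const]

theorem sum_D1 (Z : Alg G) {y : Alg G} (hy : Perp K y) (X : Alg G) (q : Pt G) :
    ∑ i, (kap Q Z y (eb G i) q * g.val q (eb G i) X +
      QQ Q y (eb G i) q * lie Z (fun r => g.val r (eb G i) X) q) = 0 := by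
  have h1 : (fun r => ∑ i, QQ Q y (eb G i) r * g.val r (eb G i) X) =
      fun _ : Pt G => ip y X := funext fun r => sum_KK hQ r hy X
  have h2 := lie_sum Finset.univ (fun i r => QQ Q y (eb G i) r * g.val r (eb G i) X)
    (fun i _ => smooth_mul (smooth_QQ Q _ _) (g.smooth _ _)) Z q
  rw [h1, lie_const] at h2
  rw [h2]
  refine Finset.sum_congr rfl fun i _ => ?_
  rw [lie_mul (smooth_QQ Q _ _) (g.smooth _ _), lie_QQ]
  rfl

theorem D1 {p : Pt G} {X x Y y : Alg G} (hX : g.Dual p X x) (hY : g.Dual p Y y) (Z : Alg G) :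
    lie Z (fun q => g.val q Y X) p = - kap Q Z y x p := by
  have h := sum_D1 hQ Z hY.perp X p
  rw [Finset.sum_add_distrib] at h
  have h1 : ∑ i, kap Q Z y (eb G i) p * g.val p (eb G i) X = kap Q Z y x p := by
    rw [← show (kapL Q Z y p) x = kap Q Z y x p from rfl, ← expand (kapL Q Z y p) x]
    refine Finset.sum_congr rfl fun i _ => ?_
    rw [g.symm, hX (eb G i), mul_comm]
    rfl
  have h2 : ∑ i, QQ Q y (eb G i) p * lie Z (fun r => g.val r (eb G i) X) p =
      lie Z (fun q => g.val q Y X) p := by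
    obtain ⟨V, hV⟩ := exists_Kv Q p y
    rw [← show (lieL g Z X p) Y = lie Z (fun q => g.val q Y X) p from rfl,
      lieL_vert g Z X p hY (dual_Kv hQ hY.perp hV), ← expand (lieL g Z X p) V]
    refine Finset.sum_congr rfl fun i _ => ?_
    rw [hV]
    rfl
  rw [h1, h2] at h
  linarith

theorem D2 {p : Pt G} {X x Y y : Alg G} (hX : g.Dual p X x) (hY : g.Dual p Y y) (W Z : Alg G)
    {DWx DZx DWy DZy : Alg G} (h1 : ∀ w, ip DWx w = kap Q W x w p)
    (h2 : ∀ w, ip DZx w = kap Q Z x w p) (h3 : ∀ w, ip DWy w = kap Q W y w p)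
    (h4 : ∀ w, ip DZy w = kap Q Z y w p) :
    lie W (lie Z (fun q => g.val q Y X)) p =
      - kap2 Q W Z y x p + g.val p DZy DWx + g.val p DWy DZx := by
  have e0 : (fun q => ∑ i, (kap Q Z y (eb G i) q * g.val q (eb G i) X +
      QQ Q y (eb G i) q * lie Z (fun r => g.val r (eb G i) X) q)) =
      fun _ : Pt G => (0 : ℝ) := funext fun q => sum_D1 hQ Z hY.perp X q
  have e1 := lie_sum Finset.univ (fun i q => kap Q Z y (eb G i) q * g.val q (eb G i) X +
      QQ Q y (eb G i) q * lie Z (fun r => g.val r (eb G i) X) q)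
    (fun i _ => smooth_add (smooth_mul (smooth_kap Q _ _ _) (g.smooth _ _))
      (smooth_mul (smooth_QQ Q _ _) (smooth_lie _ (g.smooth _ _) Z))) W p
  rw [e0, lie_const] at e1
  have e2 : ∀ i, lie W (fun q => kap Q Z y (eb G i) q * g.val q (eb G i) X +
      QQ Q y (eb G i) q * lie Z (fun r => g.val r (eb G i) X) q) p =
      kap2 Q W Z y (eb G i) p * g.val p (eb G i) X +
      kap Q Z y (eb G i) p * lie W (fun r => g.val r (eb G i) X) p +
      (kap Q W y (eb G i) p * lie Z (fun r => g.val r (eb G i) X) p +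
      QQ Q y (eb G i) p * lie W (lie Z (fun r => g.val r (eb G i) X)) p) := by
    intro i
    rw [lie_add (smooth_mul (smooth_kap Q _ _ _) (g.smooth _ _))
      (smooth_mul (smooth_QQ Q _ _) (smooth_lie _ (g.smooth _ _) Z)),
      lie_mul (smooth_kap Q _ _ _) (g.smooth _ _),
      lie_mul (smooth_QQ Q _ _) (smooth_lie _ (g.smooth _ _) Z), lie_kap, lie_QQ]
    rfl
  simp only [e2] at e1
  rw [Finset.sum_add_distrib, Finset.sum_add_distrib, Finset.sum_add_distrib] at e1
  have t1 : ∑ i, kap2 Q W Z y (eb G i) p * g.val p (eb G i) X = kap2 Q W Z y x p := by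
    rw [← show (kap2L Q W Z y p) x = kap2 Q W Z y x p from rfl, ← expand (kap2L Q W Z y p) x]
    refine Finset.sum_congr rfl fun i _ => ?_
    rw [g.symm, hX (eb G i), mul_comm]
    rfl
  have t2 : ∑ i, kap Q Z y (eb G i) p * lie W (fun r => g.val r (eb G i) X) p =
      - g.val p DZy DWx := by
    have e3 : ∑ i, kap Q Z y (eb G i) p * lie W (fun r => g.val r (eb G i) X) p =
        lie W (fun r => g.val r DZy X) p := by
      rw [← show (lieL g W X p) DZy = lie W (fun q => g.val q DZy X) p from rfl,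
        ← expand (lieL g W X p) DZy]
      refine Finset.sum_congr rfl fun i _ => ?_
      rw [h4]
      rfl
    obtain ⟨z, hz⟩ := g.exists_covec p DZy
    rw [e3, D1 hQ hX hz, kap_symm hQ, ← h1, ip_comm, hz DWx]
  have t3 : ∑ i, kap Q W y (eb G i) p * lie Z (fun r => g.val r (eb G i) X) p =
      - g.val p DWy DZx := by
    have e3 : ∑ i, kap Q W y (eb G i) p * lie Z (fun r => g.val r (eb G i) X) p =
        lie Z (fun r => g.val r DWy X) p := by
      rw [← show (lieL g Z X p) DWy = lie Z (fun q => g.val q DWy X) p from rfl,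
        ← expand (lieL g Z X p) DWy]
      refine Finset.sum_congr rfl fun i _ => ?_
      rw [h3]
      rfl
    obtain ⟨z, hz⟩ := g.exists_covec p DWy
    rw [e3, D1 hQ hX hz, kap_symm hQ, ← h2, ip_comm, hz DZx]
  have t4 : ∑ i, QQ Q y (eb G i) p * lie W (lie Z (fun r => g.val r (eb G i) X)) p =
      lie W (lie Z (fun q => g.val q Y X)) p := by
    obtain ⟨V, hV⟩ := exists_Kv Q p y
    rw [← show (lieL2 g W Z X p) Y = lie W (lie Z (fun q => g.val q Y X)) p from rfl,
      lieL2_vert g W Z X p hY (dual_Kv hQ hY.perp hV), ← expand (lieL2 g W Z X p) V]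
    refine Finset.sum_congr rfl fun i _ => ?_
    rw [hV]
    rfl
  rw [t1, t2, t3, t4] at e1
  linarith

theorem D1' {p : Pt G} {X x DZx : Alg G} (hX : g.Dual p X x) (Z : Alg G)
    (h : ∀ w, ip DZx w = kap Q Z x w p) (Y : Alg G) :
    lie Z (fun q => g.val q Y X) p = - g.val p Y DZx := by
  obtain ⟨y, hy⟩ := g.exists_covec p Y
  rw [D1 hQ hX hy, kap_symm hQ, ← h, ip_comm, hy]

theorem D1'' {p : Pt G} {X x DZx : Alg G} (hX : g.Dual p X x) (Z : Alg G)
    (h : ∀ w, ip DZx w = kap Q Z x w p) (Y : Alg G) :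
    lie Z (fun q => g.val q X Y) p = - g.val p Y DZx := by
  have h1 : (fun q => g.val q X Y) = fun q => g.val q Y X := funext fun q => g.symm q X Y
  rw [h1]
  exact D1' hQ hX Z h Y

end Pool.Agent.H842R6
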