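import Pool.Agent.H842R6.Main
import Pool.Agent.H842R6.Crit

/-!
Action-quadratic metrics on compact homogeneous spaces of rank at least two have planes of
curvature `≤ 0`.
-/

open scoped ContDiff Matrix.Norms.Frobenius
open Matrix

noncomputable section

namespace Pool.Agent.H842R6

variable {N : ℕ} {G K : CompactGroup N}

/-- the point `exp (s Z)` -/
def expPt (Z : Alg G) (s : ℝ) : Pt G := ⟨NormedSpace.exp (s • Z.1), exp_mem Z s⟩

theorem Ad_mul (p q : Pt G) (A : Alg G) : Ad (mulPt p q) A = Ad p (Ad q A) := by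
  apply Subtype.ext
  show p.1 * q.1 * A.1 * (p.1 * q.1)ᴴ = p.1 * (q.1 * A.1 * q.1ᴴ) * p.1ᴴ
  rw [conjTranspose_mul]
  simp only [Matrix.mul_assoc]

theorem ad_eq (Z : Alg G) (s : ℝ) (A : Alg G) : ad Z s A = Ad (expPt Z s) A := rfl

/-- continuous functions have maxima on the group -/
theorem exists_max (F : Mat N → ℝ) (hF : Continuous F) :
    ∃ k : Pt G, ∀ k' : Pt G, F k'.1 ≤ F k.1 := by
  obtain ⟨k, hk, hmax⟩ := (isCompact_carrier G).exists_isMaxOn
    (⟨1, G.one_mem⟩ : G.carrier.Nonempty) hF.continuousOn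
  exact ⟨⟨k, hk⟩, fun k' => hmax k'.2⟩

theorem hasDerivAt_Ad_ad (p : Pt G) (U A : Alg G) (s : ℝ) :
    HasDerivAt (fun s => Ad p (ad U s A)) (Ad p (brk U (ad U s A))) s :=
  (LinearMap.toContinuousLinearMap (AdL p)).hasFDerivAt.comp_hasDerivAt s (ad_der U A s)

theorem hasDerivAt_brk_ad (U V A : Alg G) (s : ℝ) :
    HasDerivAt (fun s => brk V (ad U s A)) (brk V (brk U (ad U s A))) s :=
  (LinearMap.toContinuousLinearMap (brL G V)).hasFDerivAt.comp_hasDerivAt s (ad_der U A s)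

theorem hasDerivAt_Ad_brk_ad (p : Pt G) (U V A : Alg G) (s : ℝ) :
    HasDerivAt (fun s => Ad p (brk V (ad U s A))) (Ad p (brk V (brk U (ad U s A)))) s :=
  (LinearMap.toContinuousLinearMap (AdL p)).hasFDerivAt.comp_hasDerivAt s
    (hasDerivAt_brk_ad U V A s)

theorem main (hrank : ∃ a b : Alg G, LinearIndependent ℝ ![a, b] ∧ brk a b = 0 ∧
      Perp K a ∧ Perp K b)
    (g : Metric G K) (hg : g.ActionQuadratic) :
    ∃ (p : Pt G) (A B : Alg G), (∀ s t : ℝ, (s • A + t • B).1 ∈ K.alg → s = 0 ∧ t = 0) ∧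
      g.sec A B p ≤ 0 := by
  obtain ⟨Q, hQs, hQd⟩ := hg
  have hQ : HasDualQ g Q := ⟨hQs, fun p a b V W h1 h2 => hQd p a b V W h1 h2⟩
  obtain ⟨u, v, huv, hbr, hu, hv⟩ := hrank
  obtain ⟨s₀, t₀, hst, hreg⟩ := reg (lip G) u v huv hbr
  obtain ⟨a, ha⟩ : ∃ a, a = s₀ • u + t₀ • v := ⟨_, rfl⟩
  obtain ⟨b, hb⟩ : ∃ b, b = -t₀ • u + s₀ • v := ⟨_, rfl⟩
  have hreg' : ∀ x, brk a x = 0 → brk b x = 0 := by
    intro x hx
    rw [ha] at hx
    rw [hb]
    exact hreg x hx
  have hpa : Perp K a := by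
    intro X hX
    rw [ha, ip_add, ip_smul, ip_smul, hu X hX, hv X hX]
    ring
  have hpb : Perp K b := by
    intro X hX
    rw [hb, ip_add, ip_smul, ip_smul, hu X hX, hv X hX]
    ring
  have hLI : LinearIndependent ℝ ![a, b] := by
    rw [LinearIndependent.pair_iff] at huv ⊢
    intro x y hxy
    have h1 := huv (x * s₀ - y * t₀) (x * t₀ + y * s₀) (by
      rw [← hxy, ha, hb]
      module)
    have h3 : (s₀ ^ 2 + t₀ ^ 2) * x = 0 := by linear_combination s₀ * h1.1 + t₀ * h1.2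
    have h4 : (s₀ ^ 2 + t₀ ^ 2) * y = 0 := by linear_combination s₀ * h1.2 - t₀ * h1.1
    have h5 : s₀ ^ 2 + t₀ ^ 2 ≠ 0 := by
      rcases hst with h6 | h6
      · positivity
      · positivity
    exact ⟨(mul_eq_zero.1 h3).resolve_left h5, (mul_eq_zero.1 h4).resolve_left h5⟩
  obtain ⟨PL, hPL⟩ := exists_PL G
  obtain ⟨p, hmax⟩ := exists_max (G := G)
    (fun x => contBil Q (PL (x * a.1 * (starL N) x)) (PL (x * a.1 * (starL N) x))) (by
      have h1 : Continuous (fun x : Mat N => PL (x * a.1 * (starL N) x)) :=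
        PL.continuous.comp ((continuous_id.mul continuous_const).mul (starL N).continuous)
      exact ((contBil Q).continuous.comp h1).clm_apply h1)
  have hmax' : ∀ k : Pt G, Q (Ad k a) (Ad k a) ≤ Q (Ad p a) (Ad p a) := by
    intro k
    have h := hmax k
    simp only [hPL] at h
    exact h
  -- first and second order conditions
  have hcrit : ∀ U : Alg G, QQ Q a (brk U a) p = 0 ∧
      QQ Q (brk U a) (brk U a) p + QQ Q a (brk U (brk U a)) p ≤ 0 := by
    intro U
    have hc := crit Q hQs (fun s => Ad p (ad U s a)) (fun s => Ad p (brk U (ad U s a)))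
      (Ad p (brk U (brk U a)))
      (fun s => hasDerivAt_Ad_ad p U a s)
      (by
        have h1 := hasDerivAt_Ad_brk_ad p U U a 0
        rw [ad_zero] at h1
        exact h1)
      (by
        intro s
        simp only [ad_zero]
        rw [ad_eq, ← Ad_mul]
        exact hmax' _)
    simp only [ad_zero] at hc
    exact hc
  obtain ⟨A, hA⟩ := exists_Kv Q p a
  obtain ⟨B, hB⟩ := exists_Kv Q p b
  have caA : brk a A = 0 := by
    apply ip_eq_zero
    intro U
    have h1 := (hcrit U).1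
    rw [← hA, ip_brk'] at h1
    exact h1
  have cbA : brk b A = 0 := hreg' A caA
  obtain ⟨ℓ, hℓ⟩ := curv_identity hQ hpa hpb hA hB caA cbA
  refine ⟨p, A, B, ?_, ?_⟩
  · rw [LinearIndependent.pair_iff] at hLI
    intro x y hxy
    apply hLI
    apply ip_eq_zero
    intro U
    have h1 : g.val p (x • A + y • B) U = 0 := g.vert p hxy U
    rw [g.add, g.smul, g.smul, dual_Kv hQ hpa hA, dual_Kv hQ hpb hB] at h1
    rw [ip_add, ip_smul, ip_smul, h1]
  · unfold Metric.sec
    apply div_nonpos_of_nonpos_of_nonneg _ (g.gram_nonneg p A B)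
    rw [hℓ]
    have h1 := (hcrit B).2
    rw [← hA, ← ip_brk A] at h1
    have h2 := g.nonneg p ℓ
    linarith

end Pool.Agent.H842R6
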