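import Pool.Agent.H842R6.Abs

/-!
Regular elements: the centraliser of a generic element is abelian.
-/

noncomputable section

namespace Pool.Agent.H842R6

variable {𝔤 : Type} [NormedAddCommGroup 𝔤] [InnerProductSpace ℝ 𝔤]

theorem LieIP.anti (L : LieIP 𝔤) (A B : 𝔤) : L.br A B = - L.br B A := by
  have h := L.br_self (A + B)
  simp only [map_add, LinearMap.add_apply, L.br_self, zero_add, add_zero] at h
  exact eq_neg_of_add_eq_zero_right h

/-- `ad x` is skew -/
theorem LieIP.skew (L : LieIP 𝔤) (x y z : 𝔤) :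
    inner ℝ (L.br x y) z = - inner ℝ y (L.br x z) := by
  rw [L.anti x y, inner_neg_left, L.ad_inv]

theorem ker_le [FiniteDimensional ℝ 𝔤] (L : LieIP 𝔤) (a₀ x : 𝔤) (hx : L.br a₀ x = 0) :
    ∃ ε : ℝ, 0 < ε ∧ LinearMap.ker (L.br (a₀ + ε • x)) ≤ LinearMap.ker (L.br a₀) := by
  set T := L.br a₀ with hT
  set S := L.br x with hS
  have hTS : ∀ z, T (S z) = S (T z) := by
    intro z
    rw [hT, hS, L.jac, hx, map_zero, LinearMap.zero_apply, zero_add]
  obtain ⟨K, hK, hKl⟩ := LinearMap.exists_antilipschitzWith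
    (T ∘ₗ (LinearMap.ker T)ᗮ.subtype) (by
      rw [LinearMap.ker_eq_bot']
      rintro ⟨m, hm⟩ h0
      have h1 : m ∈ LinearMap.ker T := h0
      have h2 : inner ℝ m m = 0 := (Submodule.mem_orthogonal _ _).1 hm m h1
      exact Subtype.ext (inner_self_eq_zero.1 h2))
  have hK2 : ∀ z ∈ (LinearMap.ker T)ᗮ, ‖z‖ ≤ K * ‖T z‖ := by
    intro z hz
    have := hKl.le_mul_dist ⟨z, hz⟩ 0
    simpa [dist_zero_right] using this
  set M := ‖LinearMap.toContinuousLinearMap S‖ with hM
  have hM2 : ∀ z, ‖S z‖ ≤ M * ‖z‖ := fun z => (LinearMap.toContinuousLinearMap S).le_opNorm z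
  have hM0 : 0 ≤ M := norm_nonneg _
  have hK0 : (0 : ℝ) < K := hK
  set ε : ℝ := 1 / (K * M + 1) with hε
  have hden : 0 < (K : ℝ) * M + 1 := by positivity
  have hε0 : 0 < ε := by positivity
  have hε1 : (K : ℝ) * (ε * M) < 1 := by
    rw [hε]
    rw [show (K : ℝ) * (1 / (K * M + 1) * M) = (K * M) / (K * M + 1) by ring, div_lt_one hden]
    linarith
  refine ⟨ε, hε0, ?_⟩
  intro y hy
  have hy' : T y + ε • S y = 0 := by
    have : L.br (a₀ + ε • x) y = 0 := hy
    rwa [map_add, map_smul, LinearMap.add_apply, LinearMap.smul_apply] at this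
  obtain ⟨y0, hy0, y1, hy1, rfl⟩ := (LinearMap.ker T).exists_add_mem_mem_orthogonal y
  have hy0' : T y0 = 0 := hy0
  have hSy0 : S y0 ∈ LinearMap.ker T := by
    rw [LinearMap.mem_ker, hTS, hy0', map_zero]
  have hU : ∀ z ∈ (LinearMap.ker T), inner ℝ z (T y1 + ε • S y1) = 0 := by
    intro z hz
    have hz' : T z = 0 := hz
    have e1 : inner ℝ z (T y1) = 0 := by
      have := L.skew a₀ z y1
      rw [← hT, hz', inner_zero_left] at this
      linarith
    have e2 : inner ℝ z (S y1) = 0 := by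
      have h1 := L.skew x z y1
      have h2 : S z ∈ LinearMap.ker T := by
        rw [LinearMap.mem_ker, hTS, hz', map_zero]
      have h3 : inner ℝ (S z) y1 = 0 := (Submodule.mem_orthogonal _ _).1 hy1 _ h2
      rw [← hS, h3] at h1
      linarith
    rw [inner_add_right, inner_smul_right, e1, e2]
    simp
  have hsum : T y1 + ε • S y1 = -(ε • S y0) := by
    rw [map_add, map_add, hy0', zero_add, smul_add] at hy'
    rw [eq_neg_iff_add_eq_zero, ← hy']
    abel
  have hz1 : T y1 + ε • S y1 = 0 := by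
    have h1 : T y1 + ε • S y1 ∈ LinearMap.ker T := by
      rw [hsum]
      exact neg_mem ((LinearMap.ker T).smul_mem _ hSy0)
    exact inner_self_eq_zero.1 (hU _ h1)
  have hTy1 : ‖T y1‖ = ε * ‖S y1‖ := by
    rw [eq_neg_of_add_eq_zero_left hz1, norm_neg, norm_smul, Real.norm_of_nonneg hε0.le]
  have h5 : ‖y1‖ ≤ K * (ε * M) * ‖y1‖ := by
    calc ‖y1‖ ≤ K * ‖T y1‖ := hK2 y1 hy1
      _ = K * (ε * ‖S y1‖) := by rw [hTy1]
      _ ≤ K * (ε * (M * ‖y1‖)) := by gcongr; exact hM2 y1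
      _ = _ := by ring
  have h6 : ‖y1‖ = 0 := by
    by_contra hne
    have hpos : 0 < ‖y1‖ := lt_of_le_of_ne (norm_nonneg _) (Ne.symm hne)
    nlinarith
  have h7 : y1 = 0 := norm_eq_zero.1 h6
  rw [h7, add_zero]
  exact hy0

/-- In an abelian plane there is a basis `a`, `b` such that the centraliser of `a` commutes
with `b`. -/
theorem reg [FiniteDimensional ℝ 𝔤] (L : LieIP 𝔤) (u v : 𝔤) (huv : LinearIndependent ℝ ![u, v])
    (hbr : L.br u v = 0) : ∃ s t : ℝ, (s ≠ 0 ∨ t ≠ 0) ∧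
      ∀ x, L.br (s • u + t • v) x = 0 → L.br (-t • u + s • v) x = 0 := by
  let T := {c : ℝ × ℝ // c ≠ 0}
  have hne : Nonempty T := ⟨⟨(1, 0), by simp⟩⟩
  let f : T → ℕ := fun c => Module.finrank ℝ (LinearMap.ker (L.br (c.1.1 • u + c.1.2 • v)))
  obtain ⟨⟨⟨s, t⟩, hst⟩, hmin⟩ : ∃ c₀, ∀ c, f c₀ ≤ f c :=
    ⟨Function.argmin f, fun a => Function.argmin_le f a⟩
  have hst' : s ≠ 0 ∨ t ≠ 0 := by
    by_contra hcon
    push Not at hcon
    exact hst (by rw [hcon.1, hcon.2]; rfl)
  refine ⟨s, t, hst', fun x hx => ?_⟩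
  have hvu : L.br v u = 0 := by rw [L.anti, hbr, neg_zero]
  have hab : L.br (s • u + t • v) (-t • u + s • v) = 0 := by
    simp only [map_add, map_smul, LinearMap.add_apply, LinearMap.smul_apply, hbr, hvu, L.br_self,
      smul_zero, add_zero]
  obtain ⟨ε, hε, hle⟩ := ker_le L (s • u + t • v) (-t • u + s • v) hab
  have hc : ((s - ε * t, t + ε * s) : ℝ × ℝ) ≠ 0 := by
    intro h
    have h1 : s - ε * t = 0 := congrArg Prod.fst h
    have h2 : t + ε * s = 0 := congrArg Prod.snd h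
    have h3 : (1 + ε ^ 2) * s = 0 := by linear_combination h1 + ε * h2
    have h4 : (1 + ε ^ 2) * t = 0 := by linear_combination h2 - ε * h1
    have h5 : (1 + ε ^ 2) ≠ 0 := by positivity
    rcases hst' with h6 | h6
    · exact h6 ((mul_eq_zero.1 h3).resolve_left h5)
    · exact h6 ((mul_eq_zero.1 h4).resolve_left h5)
  have h1 := hmin ⟨(s - ε * t, t + ε * s), hc⟩
  have he : (s - ε * t) • u + (t + ε * s) • v =
      (s • u + t • v) + ε • (-t • u + s • v) := by
    module
  have h2 : Module.finrank ℝ (LinearMap.ker (L.br (s • u + t • v))) ≤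
      Module.finrank ℝ (LinearMap.ker (L.br ((s • u + t • v) + ε • (-t • u + s • v)))) := by
    rw [← he]
    exact h1
  have heq := Submodule.eq_of_le_of_finrank_le hle h2
  have hx2 : x ∈ LinearMap.ker (L.br ((s • u + t • v) + ε • (-t • u + s • v))) := by
    rw [heq]
    exact hx
  have hx3 : L.br ((s • u + t • v) + ε • (-t • u + s • v)) x = 0 := hx2
  rw [map_add, map_smul, LinearMap.add_apply, LinearMap.smul_apply, hx, zero_add] at hx3
  exact (smul_eq_zero.1 hx3).resolve_left hε.ne'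

end Pool.Agent.H842R6
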