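import Pool.Agent.H842R6.Stmt
import Pool.Agent.H842R6.Reg
import Pool.Agent.H842R4.SULie

/-!
Basic facts on compact groups, conjugations, inner product, smooth functions.
-/

open scoped ContDiff Matrix.Norms.Frobenius
open Matrix

noncomputable section

namespace Pool.Agent.H842R6

variable {N : ℕ} {G : CompactGroup N}

theorem coe_add (A B : Alg G) : (A + B).1 = A.1 + B.1 := rfl
theorem coe_smul (c : ℝ) (A : Alg G) : (c • A).1 = c • A.1 := rfl
theorem coe_zero : (0 : Alg G).1 = 0 := rfl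
theorem coe_neg (A : Alg G) : (-A).1 = -A.1 := rfl
theorem coe_brk (A B : Alg G) : (brk A B).1 = A.1 * B.1 - B.1 * A.1 := rfl
theorem coe_Ad (p : Pt G) (A : Alg G) : (Ad p A).1 = p.1 * A.1 * p.1ᴴ := rfl
theorem coe_move (p : Pt G) (A : Alg G) (s : ℝ) :
    (move p A s).1 = p.1 * NormedSpace.exp (s • A.1) := rfl

theorem pt_mul_star (p : Pt G) : p.1 * p.1ᴴ = 1 := by
  have h1 := G.unitary p.1 p.2
  have h2 : (p.1)⁻¹ = p.1ᴴ := Matrix.inv_eq_left_inv h1
  rw [← h2]
  exact Matrix.mul_nonsing_inv _ (Matrix.isUnit_det_of_left_inverse h1)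

theorem star_mul_pt (p : Pt G) : p.1ᴴ * p.1 = 1 := G.unitary p.1 p.2

/-- elements of the Lie algebra are skew-Hermitian -/
theorem skew (A : Alg G) : A.1ᴴ = -A.1 := by
  have hcs : CompleteSpace (Mat N) := FiniteDimensional.complete ℝ (Mat N)
  have h1 : HasDerivAt (fun u : ℝ => NormedSpace.exp (u • A.1ᴴ))
      (A.1ᴴ * NormedSpace.exp ((0 : ℝ) • A.1ᴴ)) 0 := hasDerivAt_exp_smul_const' _ (0 : ℝ)
  have h2 : HasDerivAt (fun u : ℝ => NormedSpace.exp (u • A.1))
      (A.1 * NormedSpace.exp ((0 : ℝ) • A.1)) 0 := hasDerivAt_exp_smul_const' _ (0 : ℝ)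
  have h3 := h1.mul h2
  have h4 : ∀ u : ℝ, NormedSpace.exp (u • A.1ᴴ) * NormedSpace.exp (u • A.1) = 1 := by
    intro u
    have h5 := G.unitary _ (exp_mem A u)
    rwa [← Matrix.exp_conjTranspose, conjTranspose_smul, star_trivial] at h5
  have h6 : HasDerivAt (fun _ : ℝ => (1 : Mat N)) 0 (0 : ℝ) := hasDerivAt_const _ _
  have h7 : (fun u : ℝ => NormedSpace.exp (u • A.1ᴴ) * NormedSpace.exp (u • A.1)) =
      fun _ : ℝ => (1 : Mat N) := funext h4
  have h8 : (fun u : ℝ => NormedSpace.exp (u • A.1ᴴ)) * (fun u : ℝ => NormedSpace.exp (u • A.1)) =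
      fun _ : ℝ => (1 : Mat N) := h7
  rw [h8] at h3
  have h9 := h3.unique h6
  simp only [zero_smul, NormedSpace.exp_zero, mul_one, one_mul] at h9
  exact eq_neg_of_add_eq_zero_left h9

instance : NormedAddCommGroup (Alg G) := inferInstanceAs (NormedAddCommGroup G.alg)

instance : NormedSpace ℝ (Alg G) := inferInstanceAs (NormedSpace ℝ G.alg)

instance : FiniteDimensional ℝ (Alg G) := inferInstanceAs (FiniteDimensional ℝ G.alg)

theorem ip_self (A : Alg G) : ip A A = ‖A‖ ^ 2 := by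
  have h1 : ‖A‖ ^ 2 = ∑ i, ∑ j, ‖A.1 i j‖ ^ 2 := by
    have h2 : ‖A‖ = (∑ i, ∑ j, ‖A.1 i j‖ ^ (2 : ℝ)) ^ (1 / 2 : ℝ) :=
      frobenius_norm_def A.1
    have h3 : 0 ≤ ∑ i, ∑ j, ‖A.1 i j‖ ^ (2 : ℝ) :=
      Finset.sum_nonneg fun i _ => Finset.sum_nonneg fun j _ => by positivity
    rw [h2, ← Real.sqrt_eq_rpow, Real.sq_sqrt h3]
    refine Finset.sum_congr rfl fun i _ => Finset.sum_congr rfl fun j _ => ?_
    exact Real.rpow_two _
  have h4 : ∀ i j, A.1 j i = - star (A.1 i j) := by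
    intro i j
    have h5 := congrFun (congrFun (skew A) j) i
    rw [conjTranspose_apply, neg_apply] at h5
    rw [h5, neg_neg]
  rw [h1]
  unfold ip
  rw [Matrix.trace]
  simp only [diag_apply, Matrix.mul_apply, Complex.re_sum]
  rw [← Finset.sum_neg_distrib]
  refine Finset.sum_congr rfl fun i _ => ?_
  rw [← Finset.sum_neg_distrib]
  refine Finset.sum_congr rfl fun j _ => ?_
  rw [h4 i j, mul_neg, Complex.neg_re, neg_neg]
  have h6 : A.1 i j * star (A.1 i j) = ((‖A.1 i j‖ ^ 2 : ℝ) : ℂ) := by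
    push_cast
    exact Complex.mul_conj' _
  rw [h6, Complex.ofReal_re]

theorem ip_comm (A B : Alg G) : ip A B = ip B A := by
  unfold ip
  rw [trace_mul_comm]

instance : InnerProductSpace ℝ (Alg G) where
  inner A B := ip A B
  norm_sq_eq_re_inner A := by simp only [RCLike.re_to_real]; exact (ip_self A).symm
  conj_inner_symm A B := by simpa using ip_comm B A
  add_left A B C := by simp [ip, coe_add, Matrix.add_mul]; ring
  smul_left A B c := by simp [ip, coe_smul, Matrix.smul_mul]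

theorem inner_eq (A B : Alg G) : inner ℝ A B = ip A B := rfl

theorem ip_brk (A B C : Alg G) : ip (brk A B) C = ip A (brk B C) := by
  unfold ip
  rw [coe_brk, coe_brk]
  have h1 : (B.1 * A.1 * C.1).trace = (A.1 * (C.1 * B.1)).trace := by
    rw [Matrix.mul_assoc, trace_mul_comm, Matrix.mul_assoc]
  rw [Matrix.sub_mul, Matrix.mul_sub, trace_sub, trace_sub, h1, Matrix.mul_assoc]

theorem brk_self (A : Alg G) : brk A A = 0 := by
  apply Subtype.ext
  show A.1 * A.1 - A.1 * A.1 = 0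
  rw [sub_self]

theorem brk_jac (A B C : Alg G) : brk A (brk B C) = brk (brk A B) C + brk B (brk A C) := by
  apply Subtype.ext
  show A.1 * (B.1 * C.1 - C.1 * B.1) - (B.1 * C.1 - C.1 * B.1) * A.1 =
    ((A.1 * B.1 - B.1 * A.1) * C.1 - C.1 * (A.1 * B.1 - B.1 * A.1)) +
      (B.1 * (A.1 * C.1 - C.1 * A.1) - (A.1 * C.1 - C.1 * A.1) * B.1)
  noncomm_ring

/-- the bracket as a bilinear map -/
def brL (G : CompactGroup N) : Alg G →ₗ[ℝ] Alg G →ₗ[ℝ] Alg G :=
  LinearMap.mk₂ ℝ brk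
    (fun A B C => by apply Subtype.ext; simp [coe_brk, coe_add, Matrix.add_mul, Matrix.mul_add]; abel)
    (fun c A B => by apply Subtype.ext; simp [coe_brk, coe_smul, smul_sub])
    (fun A B C => by apply Subtype.ext; simp [coe_brk, coe_add, Matrix.add_mul, Matrix.mul_add]; abel)
    (fun c A B => by apply Subtype.ext; simp [coe_brk, coe_smul, smul_sub])

theorem brL_apply (A B : Alg G) : brL G A B = brk A B := rfl

/-- the Lie algebra of `G` with its invariant inner product -/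
def lip (G : CompactGroup N) : LieIP (Alg G) where
  br := brL G
  br_self := brk_self
  jac := brk_jac
  ad_inv := ip_brk

/-- the adjoint action as a linear map -/
def AdL (p : Pt G) : Alg G →ₗ[ℝ] Alg G where
  toFun := Ad p
  map_add' A B := by
    apply Subtype.ext
    simp [coe_Ad, coe_add, Matrix.mul_add, Matrix.add_mul]
  map_smul' c A := by
    apply Subtype.ext
    simp [coe_Ad, coe_smul]

theorem AdL_apply (p : Pt G) (A : Alg G) : AdL p A = Ad p A := rfl

/-- conjugation by `exp (s Z)` -/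
def ad (Z : Alg G) (s : ℝ) (A : Alg G) : Alg G := Ad ⟨NormedSpace.exp (s • Z.1), exp_mem Z s⟩ A

theorem ad_coe (Z : Alg G) (s : ℝ) (A : Alg G) : (ad Z s A).1 =
    NormedSpace.exp (s • Z.1) * A.1 * NormedSpace.exp (-(s • Z.1)) := by
  show NormedSpace.exp (s • Z.1) * A.1 * (NormedSpace.exp (s • Z.1))ᴴ = _
  congr 1
  rw [← Matrix.exp_conjTranspose, conjTranspose_smul, skew, star_trivial, smul_neg]

theorem ad_zero (Z A : Alg G) : ad Z 0 A = A := by
  apply Subtype.ext
  rw [ad_coe, zero_smul, neg_zero, NormedSpace.exp_zero, Matrix.one_mul, Matrix.mul_one]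

theorem Ad_move (p : Pt G) (Z A : Alg G) (s : ℝ) : Ad (move p Z s) A = Ad p (ad Z s A) := by
  apply Subtype.ext
  show p.1 * NormedSpace.exp (s • Z.1) * A.1 * (p.1 * NormedSpace.exp (s • Z.1))ᴴ =
    p.1 * (NormedSpace.exp (s • Z.1) * A.1 * (NormedSpace.exp (s • Z.1))ᴴ) * p.1ᴴ
  rw [conjTranspose_mul]
  simp only [Matrix.mul_assoc]

theorem ad_der (Z A : Alg G) (s : ℝ) : HasDerivAt (fun u => ad Z u A) (brk Z (ad Z s A)) s := by
  have hcs : CompleteSpace (Mat N) := FiniteDimensional.complete ℝ (Mat N)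
  obtain ⟨P, hP⟩ := G.alg.subtype.exists_leftInverse_of_injective
    (LinearMap.ker_eq_bot.2 G.alg.injective_subtype)
  have hP' : ∀ X : G.alg, P (X : Mat N) = X := fun X =>
    congrArg (fun f : G.alg →ₗ[ℝ] G.alg => f X) hP
  have h1 : HasDerivAt (fun u : ℝ => NormedSpace.exp (u • Z.1))
      (Z.1 * NormedSpace.exp (s • Z.1)) s :=
    hasDerivAt_exp_smul_const' Z.1 s
  have h2 : HasDerivAt (fun u : ℝ => NormedSpace.exp (-(u • Z.1)))
      (NormedSpace.exp (-(s • Z.1)) * (-Z.1)) s := by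
    have h3 := hasDerivAt_exp_smul_const (-Z.1) s
    simp only [smul_neg] at h3
    exact h3
  have h4 := (h1.mul_const A.1).mul h2
  have h5 := (P.toContinuousLinearMap.hasFDerivAt
    (x := NormedSpace.exp (s • Z.1) * A.1 *
      NormedSpace.exp (-(s • Z.1)))).comp_hasDerivAt s h4
  have h6 : P.toContinuousLinearMap ∘ (fun u : ℝ => NormedSpace.exp (u • Z.1) *
      A.1 * NormedSpace.exp (-(u • Z.1))) = fun u => (show G.alg from ad Z u A) := by
    funext u
    have := hP' (ad Z u A)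
    rw [← this]
    show P _ = P _
    congr 1
    exact (ad_coe Z u A).symm
  have h7 : P.toContinuousLinearMap (Z.1 * NormedSpace.exp (s • Z.1) *
      A.1 * NormedSpace.exp (-(s • Z.1)) +
      NormedSpace.exp (s • Z.1) * A.1 *
        (NormedSpace.exp (-(s • Z.1)) * (-Z.1))) = (show G.alg from brk Z (ad Z s A)) := by
    rw [← hP' (brk Z (ad Z s A))]
    show P _ = P _
    congr 1
    show _ = Z.1 * (ad Z s A).1 - (ad Z s A).1 * Z.1
    rw [ad_coe]
    simp only [Matrix.mul_assoc, Matrix.mul_neg, sub_eq_add_neg]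
  have h8 : HasDerivAt (P.toContinuousLinearMap ∘ (fun u : ℝ => NormedSpace.exp (u • Z.1) *
      A.1 * NormedSpace.exp (-(u • Z.1)))) (P.toContinuousLinearMap (Z.1 *
      NormedSpace.exp (s • Z.1) * A.1 * NormedSpace.exp (-(s • Z.1)) +
      NormedSpace.exp (s • Z.1) * A.1 *
        (NormedSpace.exp (-(s • Z.1)) * (-Z.1)))) s := h5
  rw [h6, h7] at h8
  exact h8

theorem Ad_brk (p : Pt G) (A B : Alg G) : Ad p (brk A B) = brk (Ad p A) (Ad p B) := by
  apply Subtype.ext
  rw [coe_Ad, coe_brk, coe_brk, coe_Ad, coe_Ad]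
  have h := star_mul_pt p
  have h1 : ∀ X Y : Mat N, (p.1 * X * p.1ᴴ) * (p.1 * Y * p.1ᴴ) = p.1 * (X * Y) * p.1ᴴ := by
    intro X Y
    calc (p.1 * X * p.1ᴴ) * (p.1 * Y * p.1ᴴ) = p.1 * X * (p.1ᴴ * p.1) * Y * p.1ᴴ := by
          simp only [Matrix.mul_assoc]
      _ = _ := by rw [h, Matrix.mul_one]; simp only [Matrix.mul_assoc]
  rw [h1, h1, Matrix.mul_sub, Matrix.sub_mul]

theorem Ad_ip (p : Pt G) (A B : Alg G) : ip (Ad p A) (Ad p B) = ip A B := by
  unfold ip
  rw [coe_Ad, coe_Ad]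
  have h := star_mul_pt p
  have h1 : (p.1 * A.1 * p.1ᴴ) * (p.1 * B.1 * p.1ᴴ) = p.1 * (A.1 * B.1) * p.1ᴴ := by
    calc (p.1 * A.1 * p.1ᴴ) * (p.1 * B.1 * p.1ᴴ) = p.1 * A.1 * (p.1ᴴ * p.1) * B.1 * p.1ᴴ := by
          simp only [Matrix.mul_assoc]
      _ = _ := by rw [h, Matrix.mul_one]; simp only [Matrix.mul_assoc]
  rw [h1, trace_mul_comm, ← Matrix.mul_assoc, h, Matrix.one_mul]

theorem isCompact_carrier (G : CompactGroup N) : IsCompact G.carrier := by
  have : ProperSpace (Mat N) := FiniteDimensional.proper ℝ (Mat N)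
  refine Metric.isCompact_of_isClosed_isBounded G.closed ?_
  refine (Metric.isBounded_closedBall (x := (0 : Mat N))
    (r := (∑ _i : Fin N, ∑ _j : Fin N, (1 : ℝ)) ^ (1 / 2 : ℝ))).subset ?_
  intro p hp
  rw [mem_closedBall_zero_iff, Matrix.frobenius_norm_def]
  apply Real.rpow_le_rpow
  · exact Finset.sum_nonneg fun i _ => Finset.sum_nonneg fun j _ => by positivity
  · refine Finset.sum_le_sum fun i _ => Finset.sum_le_sum fun j _ => ?_
    have h0 : p ∈ Matrix.unitaryGroup (Fin N) ℂ := by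
      rw [Matrix.mem_unitaryGroup_iff', star_eq_conjTranspose]
      exact G.unitary p hp
    have h1 : ‖p i j‖ ≤ 1 := entry_norm_bound_of_unitary h0 i j
    exact Real.rpow_le_one (norm_nonneg _) h1 (by norm_num)
  · norm_num

end Pool.Agent.H842R6
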