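import Pool.Agent.H842R6.Der

/-!
The curvature of an action-quadratic metric on commuting momenta.
-/

open scoped ContDiff Matrix.Norms.Frobenius
open Matrix

noncomputable section

namespace Pool.Agent.H842R6

variable {N : ℕ} {G K : CompactGroup N}

namespace Metric

variable (g : Metric G K)

theorem nabla_spec {A B V : Alg G} {p : Pt G} (h : ∀ C, g.val p V C = g.koszul A B C p) (C : Alg G) :
    g.val p (g.nabla A B p) C = g.val p V C := by
  have h1 : ∀ C, g.val p (g.nabla A B p) C = g.koszul A B C p :=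
    Classical.epsilon_spec (p := fun V => ∀ C, g.val p V C = g.koszul A B C p) ⟨V, h⟩
  rw [h1, h]

theorem lie_koszul (W A B C : Alg G) (p : Pt G) : lie W (g.koszul A B C) p =
    (lie W (lie A (fun q => g.val q B C)) p + lie W (lie B (fun q => g.val q A C)) p
    - lie W (lie C (fun q => g.val q A B)) p + lie W (fun q => g.val q (brk A B) C) p
    - lie W (fun q => g.val q (brk A C) B) p - lie W (fun q => g.val q (brk B C) A) p) / 2 := by
  have d1 := deriv0 _ (smooth_lie _ (g.smooth B C) A) W p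
  have d2 := deriv0 _ (smooth_lie _ (g.smooth A C) B) W p
  have d3 := deriv0 _ (smooth_lie _ (g.smooth A B) C) W p
  have d4 := deriv0 _ (g.smooth (brk A B) C) W p
  have d5 := deriv0 _ (g.smooth (brk A C) B) W p
  have d6 := deriv0 _ (g.smooth (brk B C) A) W p
  exact ((((((d1.add d2).sub d3).add d4).sub d5).sub d6).div_const 2).deriv

end Metric

variable {Q : Alg G →ₗ[ℝ] Alg G →ₗ[ℝ] ℝ} {g : Metric G K}

theorem curv_identity (hQ : HasDualQ g Q) {p : Pt G} {a b A B : Alg G}
    (ha : Perp K a) (hb : Perp K b)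
    (hA : ∀ w, ip A w = QQ Q a w p) (hB : ∀ w, ip B w = QQ Q b w p)
    (caA : brk a A = 0) (cbA : brk b A = 0) :
    ∃ ℓ : Alg G, g.curv A B p = QQ Q (brk B a) (brk B a) p + ip (brk A B) (brk B a)
      - 3 / 4 * g.val p ℓ ℓ := by
  have dA : g.Dual p A a := dual_Kv hQ ha hA
  have dB : g.Dual p B b := dual_Kv hQ hb hB
  have cAa : brk A a = 0 := by rw [brk_anti, caA, neg_zero]
  have cAb : brk A b = 0 := by rw [brk_anti, cbA, neg_zero]
  obtain ⟨θ, hθ⟩ : ∃ θ, θ = brk B a := ⟨_, rfl⟩
  obtain ⟨e, he⟩ : ∃ e, e = brk A B := ⟨_, rfl⟩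
  have bBA : brk B A = -e := by rw [brk_anti, he]
  have caB : brk a B = -θ := by rw [brk_anti, hθ]
  obtain ⟨n, hn⟩ := exists_Kv Q p θ
  obtain ⟨m, hm⟩ := exists_Kv Q p (brk B b)
  -- derivative vectors
  have dAa : ∀ x, ip 0 x = kap Q A a x p := by
    intro x
    unfold kap
    rw [cAa, ← hA, QQ_zero_left, ip_zero_left, ← ip_brk, brk_self, ip_zero_left, add_zero]
  have dBa : ∀ x, ip (n + e) x = kap Q B a x p := by
    intro x
    unfold kap
    rw [← hθ, ← hA, ← hn, ← ip_brk, ← he, ip_add]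
  have dAb : ∀ x, ip (-e) x = kap Q A b x p := by
    intro x
    unfold kap
    rw [cAb, ← hB, QQ_zero_left, ← ip_brk, bBA, zero_add]
  have dBb : ∀ x, ip m x = kap Q B b x p := by
    intro x
    unfold kap
    rw [← hB, ← hm, ← ip_brk, brk_self, ip_zero_left, add_zero]
  -- second derivatives of the dual metric
  have haa : ∀ x, QQ Q x a p = ip A x := by
    intro x
    rw [QQ_symm hQ, hA]
  have hbb : ∀ x, QQ Q x b p = ip B x := by
    intro x
    rw [QQ_symm hQ, hB]
  have k1 : kap2 Q A B b a p = - ip e θ := by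
    unfold kap2
    rw [haa, cAa, cAb, QQ_zero_left, QQ_zero_right, ← hB, ← ip_brk A, brk_self, ip_zero_left,
      ← hθ, ← ip_brk B, bBA, ip_neg]
    ring
  have k2 : kap2 Q A A b b p = 0 := by
    unfold kap2
    rw [cAb, brk_zero_right, QQ_zero_left, QQ_zero_left, QQ_zero_right]
    ring
  have k3 : kap2 Q B B a a p = 2 * ip e θ + 2 * QQ Q θ θ p := by
    unfold kap2
    rw [haa, ← hA, ← hθ, ← ip_brk A, ← he]
    ring
  have zl : ∀ X, g.val p 0 X = 0 := by
    intro X
    have := g.smul p 0 0 X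
    rw [zero_smul, zero_mul] at this
    exact this
  have zr : ∀ X, g.val p X 0 = 0 := fun X => by rw [g.symm, zl]
  have t1 : lie A (lie B (fun q => g.val q B A)) p = ip e θ + g.val p (-e) (n + e) := by
    rw [D2 hQ dA dB A B dAa dBa dAb dBb, k1, zr]
    ring
  have t2 : lie A (lie A (fun q => g.val q B B)) p = 2 * g.val p (-e) (-e) := by
    rw [D2 hQ dB dB A A dAb dAb dAb dAb, k2]
    ring
  have t3 : lie B (lie B (fun q => g.val q A A)) p =
      - (2 * ip e θ + 2 * QQ Q θ θ p) + 2 * g.val p (n + e) (n + e) := by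
    rw [D2 hQ dA dA B B dBa dBa dBa dBa, k3]
    ring
  -- derivatives along A and B
  have LA1 : ∀ Y, lie A (fun q => g.val q Y A) p = 0 := by
    intro Y
    rw [D1' hQ dA A dAa, zr, neg_zero]
  have LA2 : ∀ Y, lie A (fun q => g.val q A Y) p = 0 := by
    intro Y
    rw [D1'' hQ dA A dAa, zr, neg_zero]
  have LB1 : ∀ Y, lie B (fun q => g.val q Y A) p = - g.val p Y (n + e) :=
    fun Y => D1' hQ dA B dBa Y
  have LB2 : ∀ Y, lie B (fun q => g.val q A Y) p = - g.val p Y (n + e) :=
    fun Y => D1'' hQ dA B dBa Y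
  have LA3 : ∀ Y, lie A (fun q => g.val q Y B) p = - g.val p Y (-e) :=
    fun Y => D1' hQ dB A dAb Y
  have LA4 : ∀ Y, lie A (fun q => g.val q B Y) p = - g.val p Y (-e) :=
    fun Y => D1'' hQ dB A dAb Y
  have LC1 : ∀ C, lie C (fun q => g.val q A A) p = 0 := by
    intro C
    rw [D1 hQ dA dA C]
    unfold kap
    rw [haa, ← hA, ip_brk' A C a, caA, ip_zero_left]
    ring
  have LC2 : ∀ C, lie C (fun q => g.val q A B) p = ip θ C := by
    intro C
    rw [D1 hQ dB dA C]
    unfold kap
    rw [hbb, ← hA, ip_brk' B C a, ip_brk' A C b, cbA, ip_zero_left, caB, ip_neg]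
    ring
  have LC3 : ∀ C, lie C (fun q => g.val q B A) p = ip θ C := by
    intro C
    rw [← LC2 C]
    congr 1
    funext q
    exact g.symm q B A
  -- g(X, A), g(X, B)
  have gA : ∀ X, g.val p X A = ip a X := fun X => by rw [g.symm]; exact dA X
  have gB : ∀ X, g.val p X B = ip b X := fun X => by rw [g.symm]; exact dB X
  have gACA : ∀ C, g.val p (brk A C) A = 0 := fun C => by rw [gA, ← ip_brk, caA, ip_zero_left]
  have gACB : ∀ C, g.val p (brk A C) B = 0 := fun C => by rw [gB, ← ip_brk, cbA, ip_zero_left]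
  have gBCA : ∀ C, g.val p (brk B C) A = - ip θ C := fun C => by
    rw [gA, ← ip_brk, caB, ip_neg]
  have bl : ∀ x y, g.val p x y = g.bil p x y := fun _ _ => rfl
  have bs : ∀ x y, g.bil p x y = g.bil p y x := fun x y => g.symm p x y
  have nAA : ∀ C, g.val p (g.nabla A A p) C = g.val p 0 C := by
    apply g.nabla_spec
    intro C
    unfold Metric.koszul
    rw [LA2, LC1, zl, brk_self, zl, gACA]
    ring
  have nAB : ∀ C, g.val p (g.nabla A B p) C = g.val p ((1 / 2 : ℝ) • (e - n)) C := by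
    apply g.nabla_spec
    intro C
    unfold Metric.koszul
    rw [LA4, LB2, LC2, gACB, gBCA, ← he]
    simp only [bl, map_add, map_sub, map_neg, map_smul, LinearMap.sub_apply,
      LinearMap.smul_apply, smul_eq_mul]
    rw [bs C e, bs C n]
    ring
  have nBA : ∀ C, g.val p (g.nabla B A p) C = g.val p ((1 / 2 : ℝ) • (-e - n)) C := by
    apply g.nabla_spec
    intro C
    unfold Metric.koszul
    rw [LA4, LB2, LC3, gACB, gBCA, bBA]
    simp only [bl, map_add, map_sub, map_neg, map_smul, LinearMap.sub_apply,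
      LinearMap.neg_apply, LinearMap.smul_apply, smul_eq_mul]
    rw [bs C e, bs C n]
    ring
  have hP1 : g.val p (g.nabla B B p) (g.nabla A A p) = 0 := by
    rw [g.symm, nAA, zl]
  have hP2 : g.val p (g.nabla A B p) (g.nabla B A p) =
      1 / 4 * (g.bil p n n - g.bil p e e) := by
    rw [nAB, g.symm, nBA]
    simp only [bl, map_sub, map_neg, map_smul, LinearMap.sub_apply,
      LinearMap.neg_apply, LinearMap.smul_apply, smul_eq_mul]
    rw [bs n e]
    ring
  have hT8 : g.koszul (brk A B) B A p =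
      ip θ e - 1 / 2 * g.bil p e n - 1 / 2 * g.bil p e e := by
    unfold Metric.koszul
    rw [LC3, LB1, LA3, ← he, bBA, gA, gB, ip_brk' a _ B, ip_brk' b _ A, cAb, ip_zero_left, ← hθ]
    simp only [bl, map_add, map_neg, LinearMap.neg_apply]
    ring
  have hsw : (fun q => g.val q A B) = fun q => g.val q B A := funext fun q => g.symm q A B
  have hZ : lie B (fun q => g.val q 0 B) p = 0 := (lieL g B B p).map_zero
  refine ⟨n + e, ?_⟩
  unfold Metric.curv
  rw [g.lie_koszul, g.lie_koszul, hP1, hP2, hT8, hsw, t1, t2, t3, brk_self, brk_self,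
    LA1, LA3, hZ, LB1, LB1, ← he, bBA, ← hθ, ip_comm θ e]
  simp only [bl, map_add, map_neg, LinearMap.add_apply, LinearMap.neg_apply]
  rw [bs n e]
  ring

end Pool.Agent.H842R6
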