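import Mathlib

/-!
Riemannian metrics on compact homogeneous spaces `G/K`, and metrics whose dual is a quadratic form
with constant coefficients in the action fields of `G`.
-/

open scoped ContDiff Matrix.Norms.Frobenius
open Matrix

noncomputable section

namespace Pool.Agent.H842R6

/-- complex `N × N` matrices -/
abbrev Mat (N : ℕ) := Matrix (Fin N) (Fin N) ℂ

/-- A compact Lie group: a closed group `carrier` of unitary `N × N` matrices. Its Lie algebra `alg`
is the real vector space of all matrices `A` such that `exp (t A)` belongs to the group for all real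
numbers `t`. -/
structure CompactGroup (N : ℕ) where
  carrier : Set (Mat N)
  one_mem : 1 ∈ carrier
  mul_mem : ∀ p ∈ carrier, ∀ q ∈ carrier, p * q ∈ carrier
  inv_mem : ∀ p ∈ carrier, pᴴ ∈ carrier
  unitary : ∀ p ∈ carrier, pᴴ * p = 1
  closed : IsClosed carrier
  alg : Submodule ℝ (Mat N)
  mem_alg : ∀ A : Mat N, A ∈ alg ↔ ∀ t : ℝ, NormedSpace.exp (t • A) ∈ carrier

variable {N : ℕ}

theorem conj_mem' (G : CompactGroup N) {p A : Mat N} (hp : p ∈ G.carrier) (hA : A ∈ G.alg) :
    p * A * pᴴ ∈ G.alg := by
  have h1 : pᴴ * p = 1 := G.unitary p hp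
  have hu : p⁻¹ = pᴴ := Matrix.inv_eq_left_inv h1
  rw [G.mem_alg] at hA ⊢
  intro t
  have h3 := Matrix.exp_conj p (t • A)
    ((Matrix.isUnit_iff_isUnit_det _).2 (Matrix.isUnit_det_of_left_inverse h1))
  rw [hu] at h3
  rw [show t • (p * A * pᴴ) = p * (t • A) * pᴴ by
    rw [Matrix.mul_smul, Matrix.smul_mul], h3]
  exact G.mul_mem _ (G.mul_mem _ hp _ (hA t)) _ (G.inv_mem _ hp)

theorem brk_mem' (G : CompactGroup N) {A B : Mat N} (hA : A ∈ G.alg) (hB : B ∈ G.alg) :
    A * B - B * A ∈ G.alg := by
  have hcl : IsClosed (G.alg : Set (Mat N)) := Submodule.closed_of_finiteDimensional G.alg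
  have hcs : CompleteSpace (Mat N) := FiniteDimensional.complete ℝ (Mat N)
  have hE := (G.mem_alg A).1 hA
  have h1 : HasDerivAt (fun u : ℝ => NormedSpace.exp (u • A))
      (A * NormedSpace.exp ((0 : ℝ) • A)) 0 := hasDerivAt_exp_smul_const' A (0 : ℝ)
  have h2 : HasDerivAt (fun u : ℝ => NormedSpace.exp (-(u • A)))
      (NormedSpace.exp (-((0 : ℝ) • A)) * (-A)) 0 := by
    have h3 := hasDerivAt_exp_smul_const (-A) (0 : ℝ)
    simp only [smul_neg] at h3
    exact h3
  have h4 := (h1.mul_const B).mul h2
  have h5 : ∀ u : ℝ, NormedSpace.exp (u • A) * B * NormedSpace.exp (-(u • A)) ∈ G.alg := by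
    intro u
    have h6 : (NormedSpace.exp (u • A))ᴴ = NormedSpace.exp (-(u • A)) := by
      rw [Matrix.exp_neg]
      exact (Matrix.inv_eq_left_inv (G.unitary _ (hE u))).symm
    have h9 := conj_mem' G (hE u) hB
    rwa [h6] at h9
  have h10 := hcl.mem_of_tendsto (hasDerivAt_iff_tendsto_slope.1 h4)
    (Filter.Eventually.of_forall fun u => by
      rw [slope_def_module]
      exact G.alg.smul_mem _ (G.alg.sub_mem (h5 u) (h5 0)))
  simpa [sub_eq_add_neg] using h10

/-- the points of the group `G` -/
def Pt (G : CompactGroup N) : Type := {p : Mat N // p ∈ G.carrier}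

/-- The Lie algebra of `G`. The tangent space of `G` at `p` consists of the matrices `p A` with `A`
in the Lie algebra. -/
def Alg (G : CompactGroup N) : Type := {A : Mat N // A ∈ G.alg}

instance (G : CompactGroup N) : AddCommGroup (Alg G) := inferInstanceAs (AddCommGroup G.alg)

instance (G : CompactGroup N) : Module ℝ (Alg G) := inferInstanceAs (Module ℝ G.alg)

variable {G : CompactGroup N}

theorem exp_mem (A : Alg G) (s : ℝ) : NormedSpace.exp (s • A.1) ∈ G.carrier :=
  (G.mem_alg A.1).1 A.2 s

theorem conj_mem (p : Pt G) (A : Alg G) : p.1 * A.1 * p.1ᴴ ∈ G.alg := conj_mem' G p.2 A.2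

theorem brk_mem (A B : Alg G) : A.1 * B.1 - B.1 * A.1 ∈ G.alg := brk_mem' G A.2 B.2

/-- the adjoint action `p A p⁻¹` of a point `p` of the group on the Lie algebra -/
def Ad (p : Pt G) (A : Alg G) : Alg G := ⟨p.1 * A.1 * p.1ᴴ, conj_mem p A⟩

/-- the commutator on the Lie algebra -/
def brk (A B : Alg G) : Alg G := ⟨A.1 * B.1 - B.1 * A.1, brk_mem A B⟩

/-- the bi-invariant inner product `⟨A, B⟩ = - Re tr (A B)` on the Lie algebra -/
def ip (A B : Alg G) : ℝ := -(A.1 * B.1).trace.re

/-- the product of two points of the group -/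
def mulPt (p q : Pt G) : Pt G := ⟨p.1 * q.1, G.mul_mem _ p.2 _ q.2⟩

/-- the point `p exp(s A)` of the group -/
def move (p : Pt G) (A : Alg G) (s : ℝ) : Pt G :=
  ⟨p.1 * NormedSpace.exp (s • A.1), G.mul_mem _ p.2 _ (exp_mem A s)⟩

/-- Smooth functions on the group: restrictions of smooth functions of matrices. -/
def Smooth (f : Pt G → ℝ) : Prop := ∃ F : Mat N → ℝ, ContDiff ℝ ∞ F ∧ ∀ p, f p = F p.1

/-- derivative of a function on the group along the left-invariant field `p ↦ p A` -/
def lie (A : Alg G) (f : Pt G → ℝ) (p : Pt G) : ℝ := deriv (fun s => f (move p A s)) 0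

/-- A smooth Riemannian metric on the homogeneous space `G/K`, given by its pull-back to the group
`G` in the left-invariant frame: `g.val p A B` is the inner product of the images in the tangent
space of `G/K` at `p K` of the tangent vectors `p A` and `p B`. Such a field of bilinear forms on
`G` is the pull-back of a Riemannian metric on `G/K` if and only if it is nonnegative, its kernel is
the Lie algebra of `K` (the vertical vectors), and it is invariant under the right translations by
the elements `k` of `K`: these map `p A` to `p A k = (p k) (k⁻¹ A k)`. -/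
structure Metric (G K : CompactGroup N) where
  val : Pt G → Alg G → Alg G → ℝ
  add : ∀ p A B C, val p (A + B) C = val p A C + val p B C
  smul : ∀ p (c : ℝ) A B, val p (c • A) B = c * val p A B
  symm : ∀ p A B, val p A B = val p B A
  nonneg : ∀ p A, 0 ≤ val p A A
  ker : ∀ p A, val p A A = 0 ↔ A.1 ∈ K.alg
  inv : ∀ p k : Pt G, k.1 ∈ K.carrier → ∀ A B, val (mulPt p k) A B = val p (Ad k A) (Ad k B)
  smooth : ∀ A B, Smooth (fun p => val p A B)

namespace Metric

variable {K : CompactGroup N} (g : Metric G K)

/-- Koszul's formula for `g(∇_A B, C)`, for (the images in the tangent spaces of `G/K` of) the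
left-invariant fields `A`, `B`, `C`; `∇` is the pull-back to `G` of the Levi-Civita connection -/
def koszul (A B C : Alg G) (p : Pt G) : ℝ :=
  (lie A (fun q => g.val q B C) p + lie B (fun q => g.val q A C) p
    - lie C (fun q => g.val q A B) p + g.val p (brk A B) C - g.val p (brk A C) B
    - g.val p (brk B C) A) / 2

/-- the covariant derivative `∇_A B` of left-invariant fields at `p`: an element `V` of the Lie
algebra, unique up to vertical vectors, with `g_p(V, C) = g_p(∇_A B, C)` (Koszul's formula) for
all `C` -/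
def nabla (A B : Alg G) (p : Pt G) : Alg G :=
  Classical.epsilon fun V => ∀ C, g.val p V C = g.koszul A B C p

/-- The curvature `g(R(A,B)B, A) = g(∇_A ∇_B B - ∇_B ∇_A B - ∇_[A,B] B, A)` at `p`, in the form
`A g(∇_B B, A) - g(∇_B B, ∇_A A) - B g(∇_A B, A) + g(∇_A B, ∇_B A) - g(∇_[A,B] B, A)`. -/
def curv (A B : Alg G) (p : Pt G) : ℝ :=
  lie A (g.koszul B B A) p - g.val p (g.nabla B B p) (g.nabla A A p)
    - lie B (g.koszul A B A) p + g.val p (g.nabla A B p) (g.nabla B A p)
    - g.koszul (brk A B) B A p

/-- sectional curvature of the plane of the tangent space of `G/K` at `p K` which is spanned by the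
images of the tangent vectors `p A`, `p B` -/
def sec (A B : Alg G) (p : Pt G) : ℝ :=
  g.curv A B p / (g.val p A A * g.val p B B - g.val p A B ^ 2)

/-- The dual metric of `g` is a quadratic form with constant coefficients in the action fields of
`G` on `G/K` (the Killing fields of the normal homogeneous metric): there is a symmetric bilinear
form `Q` on the Lie algebra such that the inner product of the covectors `⟨a, ·⟩` and `⟨b, ·⟩` at
`p K` is `Q(Ad_p a, Ad_p b)`. Here `V`, `W` are vectors dual to these covectors, and `Ad_p a` is the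
momentum of the covector `⟨a, ·⟩`: its value on the action field `X p K` of `X` is
`⟨Ad_p a, X⟩`. -/
def ActionQuadratic : Prop :=
  ∃ Q : Alg G →ₗ[ℝ] Alg G →ₗ[ℝ] ℝ, (∀ x y, Q x y = Q y x) ∧
    ∀ (p : Pt G) (a b V W : Alg G), (∀ X, g.val p V X = ip a X) → (∀ X, g.val p W X = ip b X) →
      g.val p V W = Q (Ad p a) (Ad p b)

end Metric

end Pool.Agent.H842R6
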